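import Pool.Agent.U976.TG.Defs
import Pool.Agent.U976.TF.A

/-!
# Toric bundles given by fans which are not simplicial
-/

set_option autoImplicit false

namespace Pool.Agent.U976.TG

open Pool.Agent.U976.LT Filter Topology
open Pool.Agent.U976.TF (map_sum_smul exists_form)

variable {ι : Type*} [Fintype ι] {n : ℕ} {u : ι → Fin n → ℤ} {S S' : Set (Set ι)}
variable {W : Type*} [NormedAddCommGroup W] [NormedSpace ℝ W] {C : Set W} {κ : W} {N : Fin n → W}

theorem fan_ray (hS : IsFan u S) {σ : Set ι} (hσ : σ ∈ S) {i : ι} (hi : i ∈ σ) : {i} ∈ S := by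
  obtain ⟨A, hA⟩ := hS.polytope
  obtain ⟨q, hq, -⟩ := (hA σ).1 hσ
  exact (hq i hi).1

theorem rep_ray (hS : IsFan u S) {w : Fin n → ℝ} {a : ι → ℝ} (ha : IsRep u S w a) (i : ι)
    (hi : a i ≠ 0) : {i} ∈ S := by
  obtain ⟨-, ⟨σ, hσ, h⟩, -⟩ := ha
  exact fan_ray hS hσ (h i hi)

/-- The class of the difference of two representations of a vector. -/
theorem vert_mem (hS : IsFan u S) {w : Fin n → ℝ} {a a' : ι → ℝ} (ha : IsRep u S w a)
    (h0 : ∀ i, 0 ≤ a' i) (h1 : ∀ i, a' i ≠ 0 → {i} ∈ S)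
    (h2 : ∀ l, ∑ i, a' i * (u i l : ℝ) = w l) :
    ((fun i => a' i - a i, 0) : (ι → ℝ) × (W →L[ℝ] ℝ)) ∈ NE u S C N := by
  have haS := rep_ray hS ha
  refine ⟨fun l => ?_, fun i hi => ?_, fun d δ hd => ?_⟩
  · simp only [sub_mul, Finset.sum_sub_distrib, h2, ha.2.2, zero_apply, sub_self, add_zero]
  · have e1 : a' i = 0 := by
      by_contra h
      exact hi (h1 i h)
    have e2 : a i = 0 := by
      by_contra h
      exact hi (haS i h)
    simp [e1, e2]
  · obtain ⟨σ, hσ, hsupp⟩ := ha.2.1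
    obtain ⟨q, hq1, hq2, -⟩ := hd _ hσ
    simp only [deg, zero_apply, add_zero, sub_mul, Finset.sum_sub_distrib]
    have e1 : ∑ i, a i * d i + ∑ l, q l * w l = 0 := by
      rw [rep_pair ha.2.2, ← Finset.sum_add_distrib]
      refine Finset.sum_eq_zero fun i _ => ?_
      rw [← mul_add]
      by_cases hi : a i = 0
      · rw [hi, zero_mul]
      · rw [hq1 i (hsupp i hi), mul_zero]
    have e2 : 0 ≤ ∑ i, a' i * d i + ∑ l, q l * w l := by
      rw [rep_pair h2, ← Finset.sum_add_distrib]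
      refine Finset.sum_nonneg fun i _ => ?_
      rw [← mul_add]
      by_cases hi : a' i = 0
      · rw [hi, zero_mul]
      · exact mul_nonneg (h0 i) (hq2 i (h1 i hi))
    linarith

/-- The class of the curves in the section of the cone which contains the vector of the degrees of the
`N l`. -/
theorem horiz_mem (hS : IsFan u S) {ψ : W →L[ℝ] ℝ} (hψ : ∀ x ∈ C, 0 ≤ ψ x) {a : ι → ℝ}
    (ha : IsRep u S (fun l => ψ (N l)) a) :
    ((fun i => - a i, ψ) : (ι → ℝ) × (W →L[ℝ] ℝ)) ∈ NE u S C N := by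
  have haS := rep_ray hS ha
  refine ⟨fun l => ?_, fun i hi => ?_, fun d δ hd => ?_⟩
  · simp only [neg_mul, Finset.sum_neg_distrib, ha.2.2]
    ring
  · have e2 : a i = 0 := by
      by_contra h
      exact hi (haS i h)
    simp [e2]
  · obtain ⟨σ, hσ, hsupp⟩ := ha.2.1
    obtain ⟨q, hq1, hq2, hq3⟩ := hd _ hσ
    have e1 : ∑ i, a i * d i + ∑ l, q l * ψ (N l) = 0 := by
      rw [rep_pair (w := fun l => ψ (N l)) ha.2.2, ← Finset.sum_add_distrib]
      refine Finset.sum_eq_zero fun i _ => ?_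
      rw [← mul_add]
      by_cases hi : a i = 0
      · rw [hi, zero_mul]
      · rw [hq1 i (hsupp i hi), mul_zero]
    have e2 := hψ _ hq3
    rw [map_sum_smul] at e2
    simp only [deg, neg_mul, Finset.sum_neg_distrib]
    linarith

/-- A class of curves is zero on the `ℝ`-Cartier classes if an ample class is zero on it. -/
theorem eq_zero_of_interior (hS : IsFan u S) {h : ι → ℝ} {c : W}
    (hH : ∀ σ ∈ S, (∀ τ ∈ S, σ ⊆ τ → τ = σ) → ∃ q : Fin n → ℝ, (∀ i ∈ σ, h i + pr u q i = 0) ∧
      (∀ j, {j} ∈ S → j ∉ σ → 0 < h j + pr u q j) ∧ c + ∑ l, q l • N l ∈ interior C)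
    {R : (ι → ℝ) × (W →L[ℝ] ℝ)} (hR : R ∈ NE u S C N) (h0 : deg R h c = 0) (d : ι → ℝ) (δ : W)
    (hd : IsCartier u S d) : deg R d δ = 0 := by
  classical
  have key : ∀ (d : ι → ℝ) (δ : W), IsCartier u S d → 0 ≤ deg R d δ := by
    intro d δ hd
    have hev : ∀ᶠ ε in 𝓝[>] (0 : ℝ), ∀ σ : Set ι, σ ∈ S → (∀ τ ∈ S, σ ⊆ τ → τ = σ) →
        ∃ q : Fin n → ℝ, (∀ i ∈ σ, (h i + ε * d i) + pr u q i = 0) ∧
          (∀ i, {i} ∈ S → 0 ≤ (h i + ε * d i) + pr u q i) ∧ (c + ε • δ) + ∑ l, q l • N l ∈ C := by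
      rw [eventually_all]
      intro σ
      by_cases hσ : σ ∈ S ∧ (∀ τ ∈ S, σ ⊆ τ → τ = σ)
      · obtain ⟨q, hq1, hq2, hq3⟩ := hH σ hσ.1 hσ.2
        obtain ⟨p, hp⟩ := hd σ hσ.1
        have hev1 : ∀ᶠ ε in 𝓝[>] (0 : ℝ), ∀ j, {j} ∈ S → j ∉ σ →
            0 < (h j + ε * d j) + pr u (q + ε • p) j := by
          rw [eventually_all]
          intro j
          by_cases hj : {j} ∈ S ∧ j ∉ σ
          · have h1 : Tendsto (fun ε : ℝ => (h j + ε * d j) + pr u (q + ε • p) j) (𝓝[>] 0)
                (𝓝 (h j + pr u q j)) := by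
              have e1 : (fun ε : ℝ => (h j + ε * d j) + pr u (q + ε • p) j)
                  = fun ε : ℝ => (h j + pr u q j) + ε * (d j + pr u p j) := by
                funext ε
                rw [pr_add, pr_smul]
                ring
              rw [e1]
              have e2 : Continuous fun ε : ℝ => (h j + pr u q j) + ε * (d j + pr u p j) := by
                fun_prop
              have e3 := (e2.tendsto 0).mono_left (nhdsWithin_le_nhds (s := Set.Ioi 0))
              simpa using e3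
            filter_upwards [h1.eventually (lt_mem_nhds (hq2 j hj.1 hj.2))] with ε hε _ _
            exact hε
          · exact Eventually.of_forall fun ε h1 h2 => absurd ⟨h1, h2⟩ hj
        have hev2 : ∀ᶠ ε in 𝓝[>] (0 : ℝ), (c + ε • δ) + ∑ l, (q + ε • p) l • N l ∈ interior C := by
          have e2 : Continuous fun ε : ℝ => (c + ε • δ) + ∑ l, (q + ε • p) l • N l := by
            simp only [Pi.add_apply, Pi.smul_apply, smul_eq_mul]
            fun_prop
          have e3 := (e2.tendsto 0).mono_left (nhdsWithin_le_nhds (s := Set.Ioi 0))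
          refine e3.eventually ?_
          have e4 : (c + (0 : ℝ) • δ) + ∑ l, (q + (0 : ℝ) • p) l • N l = c + ∑ l, q l • N l := by
            simp
          rw [e4]
          exact isOpen_interior.mem_nhds hq3
        filter_upwards [hev1, hev2] with ε h1 h2 _ _
        refine ⟨q + ε • p, fun i hi => ?_, fun i hi => ?_, interior_subset h2⟩
        · rw [pr_add, pr_smul]
          have e1 := hq1 i hi
          have e2 := hp i hi
          have e3 : h i + ε * d i + (pr u q i + ε * pr u p i)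
              = (h i + pr u q i) + ε * (d i + pr u p i) := by ring
          rw [e3, e1, e2]
          ring
        · by_cases hiσ : i ∈ σ
          · rw [pr_add, pr_smul]
            have e1 := hq1 i hiσ
            have e2 := hp i hiσ
            have e3 : h i + ε * d i + (pr u q i + ε * pr u p i)
                = (h i + pr u q i) + ε * (d i + pr u p i) := by ring
            rw [e3, e1, e2]
            simp
          · exact (h1 i hi hiσ).le
      · exact Eventually.of_forall fun ε h1 h2 => absurd ⟨h1, h2⟩ hσ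
    obtain ⟨ε, hε, hε0⟩ := (hev.and self_mem_nhdsWithin).exists
    have hε0' : (0 : ℝ) < ε := hε0
    have hnef : IsNef u S C N (fun i => h i + ε * d i) (c + ε • δ) := by
      intro σ hσ
      obtain ⟨τ, hτ1, hτ2⟩ := (Set.toFinite S).exists_le_maximal hσ
      obtain ⟨q, hq1, hq2, hq3⟩ := hε τ hτ2.prop fun ρ hρ hle => (hτ2.eq_of_le hρ hle).symm
      exact ⟨q, fun i hi => hq1 i (hτ1 hi), hq2, hq3⟩
    have h1 := hR.2.2 _ _ hnef
    have h2 : deg R (fun i => h i + ε * d i) (c + ε • δ) = deg R h c + ε * deg R d δ := by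
      simp only [deg, mul_add, Finset.sum_add_distrib, map_add, map_smul, smul_eq_mul,
        Finset.mul_sum]
      have e1 : ∑ i, R.1 i * (ε * d i) = ∑ i, ε * (R.1 i * d i) :=
        Finset.sum_congr rfl fun i _ => by ring
      rw [e1]
      ring
    rw [h2, h0, zero_add] at h1
    exact nonneg_of_mul_nonneg_right h1 hε0'
  refine le_antisymm ?_ (key d δ hd)
  have h1 := key (fun i => - d i) (-δ) (by
    intro σ hσ
    obtain ⟨q, hq⟩ := hd σ hσ
    refine ⟨-q, fun i hi => ?_⟩
    have e1 := hq i hi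
    have e2 : pr u (-q) i = - pr u q i := by
      simp [pr]
    rw [e2]
    linarith)
  have h2 : deg R (fun i => - d i) (-δ) = - deg R d δ := by
    simp only [deg, mul_neg, Finset.sum_neg_distrib, map_neg]
    ring
  linarith

/-- The canonically negative extremal rays are vertical. -/
theorem vertical (hS : IsFan u S) (hadd : ∀ x ∈ C, ∀ y ∈ C, x + y ∈ C)
    (hsmul : ∀ t : ℝ, 0 ≤ t → ∀ x ∈ C, t • x ∈ C) (hint : (interior C).Nonempty) (hκ : κ ∈ C)
    (hK : IsCartier u S (fun _ => -1)) {h : ι → ℝ} {c : W} {R : (ι → ℝ) × (W →L[ℝ] ℝ)}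
    (hs : IsSupporting u S C N h c R) (hneg : deg R (fun _ => -1) κ < 0) : R.2 = 0 := by
  classical
  by_contra hψ
  by_cases hall : ∀ σ ∈ S, (∀ τ ∈ S, σ ⊆ τ → τ = σ) → ∃ q : Fin n → ℝ, (∀ i ∈ σ, h i + pr u q i = 0) ∧
      (∀ j, {j} ∈ S → j ∉ σ → 0 < h j + pr u q j) ∧ c + ∑ l, q l • N l ∈ interior C
  · obtain ⟨d, δ, hd, hne⟩ := hs.ne
    exact hne (eq_zero_of_interior hS hall hs.mem hs.zero d δ hd)
  push Not at hall
  obtain ⟨σ, hσ, hmax, hbad⟩ := hall
  obtain ⟨q, hq1, hq2, hq3⟩ := hs.nef σ hσ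
  by_cases hj : ∀ j, {j} ∈ S → j ∉ σ → 0 < h j + pr u q j
  · -- a horizontal class
    obtain ⟨ψ, hψ0, hψC, hψx⟩ := exists_form hadd hsmul hint hq3 (hbad q hq1 hj)
    obtain ⟨a, ha⟩ := hS.cover (fun l => ψ (N l))
    have hmem := horiz_mem (N := N) hS hψC ha
    have haS := rep_ray hS ha
    have h1 : deg ((fun i => - a i, ψ) : (ι → ℝ) × (W →L[ℝ] ℝ)) h c = 0 := by
      refine le_antisymm ?_ (hmem.2.2 _ _ hs.nef)
      have e1 : 0 ≤ ∑ i, a i * h i + ∑ l, q l * ψ (N l) := by
        rw [rep_pair (w := fun l => ψ (N l)) ha.2.2, ← Finset.sum_add_distrib]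
        refine Finset.sum_nonneg fun i _ => ?_
        rw [← mul_add]
        by_cases hi : a i = 0
        · rw [hi, zero_mul]
        · exact mul_nonneg (ha.1 i) (hq2 i (haS i hi))
      rw [map_sum_smul] at hψx
      simp only [deg, neg_mul, Finset.sum_neg_distrib]
      linarith
    obtain ⟨t, ht0, ht⟩ := hs.ray _ hmem h1
    have ht1 : 0 < t := by
      rcases ht0.lt_or_eq with h | h
      · exact h
      · exfalso
        apply hψ0
        ext x
        have e1 := ht (fun _ => 0) x (fun σ _ => ⟨0, fun i _ => by simp [pr]⟩)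
        rw [← h, zero_mul] at e1
        simpa [deg] using e1
    have e2 := ht _ κ hK
    have e3 : 0 ≤ deg ((fun i => - a i, ψ) : (ι → ℝ) × (W →L[ℝ] ℝ)) (fun _ => -1) κ := by
      have f1 := hψC _ hκ
      have f2 : 0 ≤ ∑ i, a i := Finset.sum_nonneg fun i _ => ha.1 i
      simp only [deg, mul_neg, mul_one, neg_neg]
      linarith
    have e4 := mul_neg_of_pos_of_neg ht1 hneg
    linarith
  · -- a vertical class
    push Not at hj
    obtain ⟨j, hjS, hjσ, hj0⟩ := hj
    let a' : ι → ℝ := fun i => if i = j ∨ i ∈ σ then 1 else 0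
    have hq2' : ∀ i, i = j ∨ i ∈ σ → h i + pr u q i = 0 := by
      rintro i (rfl | hi)
      · exact le_antisymm hj0 (hq2 _ hjS)
      · exact hq1 i hi
    have ha'0 : ∀ i, 0 ≤ a' i := fun i => by
      simp only [a']
      split_ifs
      · exact zero_le_one
      · exact le_rfl
    have ha'1 : ∀ i, a' i ≠ 0 → i = j ∨ i ∈ σ := fun i hi => by
      by_contra h
      exact hi (by simp only [a', if_neg h])
    have ha'S : ∀ i, a' i ≠ 0 → {i} ∈ S := fun i hi => by
      rcases ha'1 i hi with rfl | h1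
      · exact hjS
      · exact fan_ray hS hσ h1
    obtain ⟨a, ha⟩ := hS.cover (fun l => ∑ i, a' i * (u i l : ℝ))
    have haS := rep_ray hS ha
    have hmem := vert_mem (C := C) (N := N) (a' := a') hS ha ha'0 ha'S (fun l => rfl)
    have h1 : deg ((fun i => a' i - a i, 0) : (ι → ℝ) × (W →L[ℝ] ℝ)) h c = 0 := by
      refine le_antisymm ?_ (hmem.2.2 _ _ hs.nef)
      have e1 : 0 ≤ ∑ i, a i * h i + ∑ l, q l * (∑ i, a' i * (u i l : ℝ)) := by
        rw [rep_pair (w := fun l => ∑ i, a' i * (u i l : ℝ)) ha.2.2, ← Finset.sum_add_distrib]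
        refine Finset.sum_nonneg fun i _ => ?_
        rw [← mul_add]
        by_cases hi : a i = 0
        · rw [hi, zero_mul]
        · exact mul_nonneg (ha.1 i) (hq2 i (haS i hi))
      have e2 : ∑ i, a' i * h i + ∑ l, q l * (∑ i, a' i * (u i l : ℝ)) = 0 := by
        rw [rep_pair (u := u) (w := fun l => ∑ i, a' i * (u i l : ℝ)) (a := a') (fun l => rfl),
          ← Finset.sum_add_distrib]
        refine Finset.sum_eq_zero fun i _ => ?_
        rw [← mul_add]
        by_cases hi : i = j ∨ i ∈ σ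
        · rw [hq2' i hi, mul_zero]
        · simp only [a', if_neg hi, zero_mul]
      simp only [deg, zero_apply, add_zero, sub_mul, Finset.sum_sub_distrib]
      linarith
    obtain ⟨t, ht0, ht⟩ := hs.ray _ hmem h1
    have ht1 : t = 0 := by
      by_contra hne
      apply hψ
      ext x
      have e1 := ht (fun _ => 0) x (fun σ _ => ⟨0, fun i _ => by simp [pr]⟩)
      have e2 : t * R.2 x = 0 := by simpa [deg] using e1.symm
      rcases mul_eq_zero.1 e2 with h | h
      · exact absurd h hne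
      · simpa using h
    -- an ample class of the fibres
    obtain ⟨A, hA⟩ := hS.polytope
    have hAC : IsCartier u S A := by
      intro τ hτ
      obtain ⟨p, hp, -⟩ := (hA τ).1 hτ
      exact ⟨p, fun i hi => (hp i hi).2⟩
    have h3 := ht A 0 hAC
    rw [ht1, zero_mul] at h3
    simp only [deg, zero_apply, add_zero, sub_mul, Finset.sum_sub_distrib] at h3
    obtain ⟨τ, hτ, hsupp⟩ := ha.2.1
    obtain ⟨p, hp1, hp2⟩ := (hA τ).1 hτ
    have h4 : ∑ i, a i * A i + ∑ l, p l * (∑ i, a' i * (u i l : ℝ)) = 0 := by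
      rw [rep_pair (w := fun l => ∑ i, a' i * (u i l : ℝ)) ha.2.2, ← Finset.sum_add_distrib]
      refine Finset.sum_eq_zero fun i _ => ?_
      rw [← mul_add]
      by_cases hi : a i = 0
      · rw [hi, zero_mul]
      · rw [(hp1 i (hsupp i hi)).2, mul_zero]
    have h5 : ∑ i, a' i * (A i + pr u p i) = 0 := by
      simp only [mul_add, Finset.sum_add_distrib]
      rw [← rep_pair (u := u) (w := fun l => ∑ i, a' i * (u i l : ℝ)) (a := a') (fun l => rfl)]
      linarith
    have h6 : ∀ i, {i} ∈ S → 0 ≤ A i + pr u p i := by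
      intro i hi
      by_cases hiτ : i ∈ τ
      · exact (hp1 i hiτ).2.ge
      · exact (hp2 i hi hiτ).le
    have h7 := (Finset.sum_eq_zero_iff_of_nonneg (fun i _ => by
      by_cases hi : a' i = 0
      · rw [hi, zero_mul]
      · exact mul_nonneg (ha'0 i) (h6 i (ha'S i hi)))).1 h5
    have h8 : insert j σ ⊆ τ := by
      intro i hi
      by_contra hiτ
      have e1 : a' i = 1 := if_pos hi
      have e2 := h7 i (Finset.mem_univ i)
      rw [e1, one_mul] at e2
      exact absurd e2 (hp2 i (ha'S i (by rw [e1]; exact one_ne_zero)) hiτ).ne'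
    have h9 := hmax τ hτ ((Set.subset_insert j σ).trans h8)
    exact hjσ (h9 ▸ h8 (Set.mem_insert j σ))

end Pool.Agent.U976.TG
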