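import Pool.Agent.U976.TG.A

/-!
# Programs without `ℚ`-factoriality on toric bundles
-/

set_option autoImplicit false

namespace Pool.Agent.U976.TG

open Pool.Agent.U976.LT

variable {ι : Type*} [Fintype ι] {n : ℕ} {u : ι → Fin n → ℤ} {S S' : Set (Set ι)}
variable {W : Type*} [NormedAddCommGroup W] [NormedSpace ℝ W] {C : Set W} {δ : W} {N : Fin n → W}
  {d : ι → ℝ}

/-- The value of an `ℝ`-Cartier class at a vector does not depend on the representation. -/
theorem rep_cartier (hS : IsFan u S) (hd : IsCartier u S d) {w : Fin n → ℝ} {a a' : ι → ℝ}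
    (ha : IsRep u S w a) (ha' : IsRep u S w a') : ∑ i, a' i * d i = ∑ i, a i * d i := by
  obtain ⟨A, hA⟩ := hS.polytope
  obtain ⟨σ, hσ, hsupp⟩ := ha.2.1
  obtain ⟨τ, hτ, hsupp'⟩ := ha'.2.1
  obtain ⟨q, hq1, hq2⟩ := (hA σ).1 hσ
  obtain ⟨p, hp1, hp2⟩ := (hA τ).1 hτ
  have hq3 : ∀ i, {i} ∈ S → 0 ≤ A i + pr u q i := fun i hi => by
    by_cases h : i ∈ σ
    · exact (hq1 i h).2.ge
    · exact (hq2 i hi h).le
  have hp3 : ∀ i, {i} ∈ S → 0 ≤ A i + pr u p i := fun i hi => by
    by_cases h : i ∈ τ
    · exact (hp1 i h).2.ge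
    · exact (hp2 i hi h).le
  have e1 : ∑ i, a i * (A i + pr u q i) = 0 := Finset.sum_eq_zero fun i _ => by
    by_cases hi : a i = 0
    · rw [hi, zero_mul]
    · rw [(hq1 i (hsupp i hi)).2, mul_zero]
  have e2 : ∑ i, a' i * (A i + pr u p i) = 0 := Finset.sum_eq_zero fun i _ => by
    by_cases hi : a' i = 0
    · rw [hi, zero_mul]
    · rw [(hp1 i (hsupp' i hi)).2, mul_zero]
  have n1 : ∀ i, 0 ≤ a i * (A i + pr u p i) := fun i => by
    by_cases hi : a i = 0
    · rw [hi, zero_mul]
    · exact mul_nonneg (ha.1 i) (hp3 i (rep_ray hS ha i hi))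
  have n2 : ∀ i, 0 ≤ a' i * (A i + pr u q i) := fun i => by
    by_cases hi : a' i = 0
    · rw [hi, zero_mul]
    · exact mul_nonneg (ha'.1 i) (hq3 i (rep_ray hS ha' i hi))
  have s1 := Finset.sum_nonneg fun i (_ : i ∈ Finset.univ) => n1 i
  have s2 := Finset.sum_nonneg fun i (_ : i ∈ Finset.univ) => n2 i
  have e3 : ∑ i, a i * (A i + pr u p i) = 0 := by
    refine le_antisymm ?_ s1
    simp only [mul_add, Finset.sum_add_distrib] at e1 e2 s1 s2 ⊢
    rw [← rep_pair ha.2.2] at e1 s1 ⊢
    rw [← rep_pair ha'.2.2] at e2 s2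
    linarith
  have e4 := (Finset.sum_eq_zero_iff_of_nonneg fun i _ => n1 i).1 e3
  have hsub : ∀ i, a i ≠ 0 → i ∈ τ := by
    intro i hi
    by_contra h
    rcases mul_eq_zero.1 (e4 i (Finset.mem_univ i)) with h1 | h1
    · exact hi h1
    · exact (hp2 i (rep_ray hS ha i hi) h).ne' h1
  obtain ⟨r, hr⟩ := hd τ hτ
  have f1 : ∑ i, a i * (d i + pr u r i) = 0 := Finset.sum_eq_zero fun i _ => by
    by_cases hi : a i = 0
    · rw [hi, zero_mul]
    · rw [hr i (hsub i hi), mul_zero]
  have f2 : ∑ i, a' i * (d i + pr u r i) = 0 := Finset.sum_eq_zero fun i _ => by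
    by_cases hi : a' i = 0
    · rw [hi, zero_mul]
    · rw [hr i (hsupp' i hi), mul_zero]
  simp only [mul_add, Finset.sum_add_distrib] at f1 f2
  rw [← rep_pair ha.2.2] at f1
  rw [← rep_pair ha'.2.2] at f2
  linarith

/-- The discrepancies do not decrease in a step. -/
theorem step_le (hS : IsFan u S) (hd : IsCartier u S d) (hst : IsStep u S S' C N d δ)
    {w : Fin n → ℝ} {a a' : ι → ℝ} (ha : IsRep u S w a) (ha' : IsRep u S' w a') :
    ∑ i, a' i * d i ≤ ∑ i, a i * d i := by
  obtain ⟨h, c, R, hs, hneg, -, hpull, -⟩ := hst.step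
  have haS' : ∀ i, a' i ≠ 0 → {i} ∈ S := fun i hi => hst.rays i (rep_ray hst.fan ha' i hi)
  have hmem := vert_mem (C := C) (N := N) hS ha ha'.1 haS' ha'.2.2
  have h1 : deg ((fun i => a' i - a i, 0) : (ι → ℝ) × (W →L[ℝ] ℝ)) h c = 0 := by
    simp only [deg, zero_apply, add_zero, sub_mul, Finset.sum_sub_distrib]
    rw [hpull w a a' ha ha', sub_self]
  obtain ⟨t, ht0, ht⟩ := hs.ray _ hmem h1
  have e2 := ht d δ hd
  simp only [deg, zero_apply, add_zero, sub_mul, Finset.sum_sub_distrib] at e2
  have e3 : t * deg R d δ ≤ 0 := mul_nonpos_of_nonneg_of_nonpos ht0 hneg.le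
  simp only [deg] at e3
  linarith

/-- Some discrepancy increases in a step. -/
theorem step_lt (hS : IsFan u S) (hst : IsStep u S S' C N d δ)
    (heq : ∀ (w : Fin n → ℝ) (a a' : ι → ℝ), IsRep u S w a → IsRep u S' w a' →
      ∑ i, a' i * d i = ∑ i, a i * d i) : False := by
  classical
  obtain ⟨h, c, R, hs, hneg, -, hpull, t, ht, hamp⟩ := hst.step
  let e : ι → ℝ := fun i => d i + t * h i
  have hagree : ∀ (w : Fin n → ℝ) (a a' : ι → ℝ), IsRep u S w a → IsRep u S' w a' →
      ∑ i, a' i * e i = ∑ i, a i * e i := by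
    intro w a a' ha ha'
    have e1 := heq w a a' ha ha'
    have e2 := hpull w a a' ha ha'
    have e3 : ∀ a : ι → ℝ, ∑ i, a i * e i = ∑ i, a i * d i + t * ∑ i, a i * h i := by
      intro a
      simp only [e, mul_add, Finset.sum_add_distrib, Finset.mul_sum]
      congr 1
      exact Finset.sum_congr rfl fun i _ => by ring
    rw [e3, e3, e1, e2]
  have hnef : IsNef u S C N e (δ + t • c) := by
    intro τ hτ
    let a : ι → ℝ := fun i => if i ∈ τ then 1 else 0
    have ha0 : ∀ i, 0 ≤ a i := fun i => by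
      simp only [a]
      split_ifs
      · exact zero_le_one
      · exact le_rfl
    have ha : IsRep u S (fun l => ∑ i, a i * (u i l : ℝ)) a := by
      refine ⟨ha0, ⟨τ, hτ, fun i hi => ?_⟩, fun l => rfl⟩
      by_contra hi'
      exact hi (by simp [a, hi'])
    obtain ⟨a', ha'⟩ := hst.fan.cover (fun l => ∑ i, a i * (u i l : ℝ))
    obtain ⟨σ', hσ', hsupp⟩ := ha'.2.1
    obtain ⟨q, hq1, hq2, hq3⟩ := hamp σ' hσ'
    have hq4 : ∀ i, {i} ∈ S' → 0 ≤ e i + pr u q i := fun i hi => by
      by_cases h : i ∈ σ'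
      · exact (hq1 i h).ge
      · exact (hq2 i hi h).le
    have hnn : ∀ i, {i} ∈ S → 0 ≤ e i + pr u q i := by
      intro i hi
      have hsingle : IsRep u S (fun l => (u i l : ℝ)) (Pi.single i 1) := by
        refine ⟨fun j => ?_, ⟨{i}, hi, fun j hj => ?_⟩, fun l => ?_⟩
        · by_cases hji : j = i
          · subst hji
            simp
          · simp [hji]
        · by_contra hji
          exact hj (by simp [show j ≠ i from hji])
        · rw [Finset.sum_eq_single i]
          · simp
          · intro j _ hji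
            simp [hji]
          · intro h
            exact absurd (Finset.mem_univ i) h
      obtain ⟨r, hr⟩ := hst.fan.cover (fun l => (u i l : ℝ))
      have e1 := hagree _ _ _ hsingle hr
      have e2 : ∑ j, (Pi.single i (1 : ℝ) : ι → ℝ) j * e j = e i := by
        rw [Finset.sum_eq_single i]
        · simp
        · intro j _ hji
          simp [hji]
        · intro h
          exact absurd (Finset.mem_univ i) h
      have e3 : ∑ j, r j * pr u q j = pr u q i := by
        rw [← rep_pair hr.2.2]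
        rfl
      have e4 : 0 ≤ ∑ j, r j * (e j + pr u q j) := Finset.sum_nonneg fun j _ => by
        by_cases hj : r j = 0
        · rw [hj, zero_mul]
        · exact mul_nonneg (hr.1 j) (hq4 j (rep_ray hst.fan hr j hj))
      simp only [mul_add, Finset.sum_add_distrib] at e4
      rw [e1, e2, e3] at e4
      exact e4
    have h1 : ∑ i, a i * (e i + pr u q i) = 0 := by
      have e1 := hagree _ _ _ ha ha'
      have e2 : ∑ j, a' j * (e j + pr u q j) = 0 := Finset.sum_eq_zero fun j _ => by
        by_cases hj : a' j = 0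
        · rw [hj, zero_mul]
        · rw [hq1 j (hsupp j hj), mul_zero]
      simp only [mul_add, Finset.sum_add_distrib] at e2 ⊢
      rw [← rep_pair (w := fun l => ∑ i, a i * (u i l : ℝ)) ha'.2.2] at e2
      rw [← rep_pair (w := fun l => ∑ i, a i * (u i l : ℝ)) ha.2.2]
      linarith
    have h2 := (Finset.sum_eq_zero_iff_of_nonneg (fun i _ => by
      by_cases hi : a i = 0
      · rw [hi, zero_mul]
      · exact mul_nonneg (ha0 i) (hnn i (rep_ray hS ha i hi)))).1 h1
    refine ⟨q, fun i hi => ?_, hnn, interior_subset hq3⟩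
    have e1 : a i = 1 := if_pos hi
    have e2 := h2 i (Finset.mem_univ i)
    rwa [e1, one_mul] at e2
  have h1 := hs.mem.2.2 _ _ hnef
  have h2 : deg R e (δ + t • c) = deg R d δ + t * deg R h c := by
    simp only [deg, e, mul_add, Finset.sum_add_distrib, map_add, map_smul, smul_eq_mul,
      Finset.mul_sum]
    have e1 : ∑ i, R.1 i * (t * h i) = ∑ i, t * (R.1 i * h i) :=
      Finset.sum_congr rfl fun i _ => by ring
    rw [e1]
    ring
  rw [h2, hs.zero, mul_zero, add_zero] at h1
  linarith

/-- Every program is finite, with a bound which depends only on the rays. -/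
theorem programs (hS : IsFan u S) (hd : IsCartier u S d) {m : ℕ} {T : ℕ → Set (Set ι)}
    (h0 : T 0 = S) (hT : ∀ j < m, IsStep u (T j) (T (j + 1)) C N d δ) :
    m < Nat.card {S' : Set (Set ι) // IsFan u S'} ∧ IsFan u (T m) ∧ IsCartier u (T m) d := by
  classical
  have hfan : ∀ j ≤ m, IsFan u (T j) := by
    intro j hj
    rcases j with _ | j
    · rw [h0]
      exact hS
    · exact (hT j (by omega)).fan
  have hcar : ∀ j ≤ m, IsCartier u (T j) d := by
    intro j hj
    rcases j with _ | j
    · rw [h0]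
      exact hd
    · exact (hT j (by omega)).cartier
  refine ⟨?_, hfan m le_rfl, hcar m le_rfl⟩
  have hmono : ∀ j k, j ≤ k → k ≤ m → ∀ (w : Fin n → ℝ) (a a' : ι → ℝ), IsRep u (T j) w a →
      IsRep u (T k) w a' → ∑ i, a' i * d i ≤ ∑ i, a i * d i := by
    intro j k hjk
    induction k, hjk using Nat.le_induction with
    | base =>
      intro hk w a a' ha ha'
      exact (rep_cartier (hfan j hk) (hcar j hk) ha ha').le
    | succ k hjk ih =>
      intro hk w a a' ha ha'
      obtain ⟨a'', ha''⟩ := (hfan k (by omega)).cover w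
      exact (step_le (hfan k (by omega)) (hcar k (by omega)) (hT k (by omega)) ha'' ha').trans
        (ih (by omega) w a a'' ha ha'')
  let F : Fin (m + 1) → {S' : Set (Set ι) // IsFan u S'} := fun j => ⟨T j, hfan j (by omega)⟩
  have hlt : ∀ j k : ℕ, j < k → k ≤ m → T j ≠ T k := by
    intro j k hjk hk heq
    refine step_lt (hfan j (by omega)) (hT j (by omega)) fun w a a' ha ha' => ?_
    refine le_antisymm (step_le (hfan j (by omega)) (hcar j (by omega)) (hT j (by omega)) ha ha') ?_
    exact hmono (j + 1) k (by omega) hk w a' a ha' (heq ▸ ha)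
  have hinj : Function.Injective F := by
    intro j k hjk
    have h1 : T j = T k := congrArg Subtype.val hjk
    by_contra hne
    rcases lt_or_gt_of_ne (fun h => hne (Fin.ext h) : (j : ℕ) ≠ k) with h | h
    · exact hlt j k h (by omega) h1
    · exact hlt k j h (by omega) h1.symm
  have h2 := Nat.card_le_card_of_injective F hinj
  rw [Nat.card_eq_fintype_card, Fintype.card_fin] at h2
  omega

end Pool.Agent.U976.TG
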