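import Pool.Agent.U976.LT.Defs
import Mathlib.Topology.Algebra.Module.Basic

/-!
# Toric bundles given by fans which are not simplicial, and flips without `ℚ`-factoriality

Let `X` be a projective variety with the space `W` of classes `N^1(X)`, and `C ⊆ W` the cone of the nef
classes. Let `N l ∈ W`, `l < n`, be the classes of `n` line bundles on `X`. They give for each complete fan
in `ℝ ^ n`, simplicial or not, a toric bundle `Y → X`. The rays of the fans are generated by some of the
(primitive) vectors `u i ∈ ℤ ^ n`, and `D_i` is the torus invariant prime divisor of the ray of `u i`. A fan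
is given by the set `S` of the sets `σ` of the indices of the rays of its cones. The pair `(d, α)`, `d i ∈ ℝ`,
`α ∈ W`, is the divisor class `∑ d i D_i + π^* α` on `Y`, where the sum is over the rays of the fan; for
`q ∈ ℝ ^ n` it is equal to the class `(d i + ⟨q, u i⟩, α + ∑ q l N l)`. The canonical class of `Y` is
`(-1, κ)`, where `κ` is the class of `K_X`. `pr u q i` is the pairing `⟨q, u i⟩`.
-/

set_option autoImplicit false

namespace Pool.Agent.U976.TG

open Pool.Agent.U976.LT

variable {ι : Type*} [Fintype ι] {n : ℕ}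

/-- `w = ∑ a i u i`, `a i ≥ 0`, where the `u i` with `a i ≠ 0` are in a cone of the fan. -/
def IsRep (u : ι → Fin n → ℤ) (S : Set (Set ι)) (w : Fin n → ℝ) (a : ι → ℝ) : Prop :=
  (∀ i, 0 ≤ a i) ∧ (∃ σ ∈ S, ∀ i, a i ≠ 0 → i ∈ σ) ∧ ∀ l, ∑ i, a i * (u i l : ℝ) = w l

/-- `S` is a complete projective fan, that is, the normal fan of a polytope: the cones cover `ℝ ^ n`, and
there are numbers `A i` such that the sets in `S` are the sets of all rays for which the inequality
`A i + ⟨q, u i⟩ ≥ 0` is an equality, for the points `q` of the polytope which is given by these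
inequalities. -/
structure IsFan (u : ι → Fin n → ℤ) (S : Set (Set ι)) : Prop where
  cover : ∀ w : Fin n → ℝ, ∃ a : ι → ℝ, IsRep u S w a
  polytope : ∃ A : ι → ℝ, ∀ σ : Set ι, σ ∈ S ↔ ∃ q : Fin n → ℝ,
    (∀ i ∈ σ, {i} ∈ S ∧ A i + pr u q i = 0) ∧ ∀ j, {j} ∈ S → j ∉ σ → 0 < A j + pr u q j

variable {W : Type*} [NormedAddCommGroup W] [NormedSpace ℝ W]

/-- The divisor classes `(d, α)` are `ℝ`-Cartier on `Y`: on each cone there is a linear form with the
values `- d i` at the `u i`. -/
def IsCartier (u : ι → Fin n → ℤ) (S : Set (Set ι)) (d : ι → ℝ) : Prop :=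
  ∀ σ ∈ S, ∃ q : Fin n → ℝ, ∀ i ∈ σ, d i + pr u q i = 0

/-- The class `(d, α)` is ample: as in the definition `IsNef` in `Pool.Agent.U976.LT.Defs`, with positive
coefficients for the rays which are not in the cone, and with ample `β` (the ample classes of `X` are the
interior points of the nef cone). -/
def IsAmple (u : ι → Fin n → ℤ) (S : Set (Set ι)) (C : Set W) (N : Fin n → W) (d : ι → ℝ) (α : W) :
    Prop :=
  ∀ σ ∈ S, ∃ q : Fin n → ℝ, (∀ i ∈ σ, d i + pr u q i = 0) ∧
    (∀ i, {i} ∈ S → i ∉ σ → 0 < d i + pr u q i) ∧ α + ∑ l, q l • N l ∈ interior C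

/-- The degree of the class `(d, α)` on the class `R = (φ, ψ)` of curves. The classes of curves on `Y` are
linear forms on the space of the `ℝ`-Cartier classes. Such a form is given by a pair `(φ, ψ)`, where the
linear form `ψ` on `W` is the pushforward of the class to `X`. -/
def deg (R : (ι → ℝ) × (W →L[ℝ] ℝ)) (d : ι → ℝ) (α : W) : ℝ := ∑ i, R.1 i * d i + R.2 α

/-- The closed cone of curves of the toric bundle with the fan `S`: the linear forms (the degree is well
defined, and `φ i = 0` if `u i` is not a ray of the fan) which are nonnegative on the nef classes. -/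
def NE (u : ι → Fin n → ℤ) (S : Set (Set ι)) (C : Set W) (N : Fin n → W) :
    Set ((ι → ℝ) × (W →L[ℝ] ℝ)) :=
  {R | (∀ l, ∑ i, R.1 i * (u i l : ℝ) + R.2 (N l) = 0) ∧ (∀ i, {i} ∉ S → R.1 i = 0) ∧
    ∀ (d : ι → ℝ) (α : W), IsNef u S C N d α → 0 ≤ deg R d α}

/-- `(h, c)` is a nef supporting class of the extremal ray of `R` in the cone of curves: `R` is not zero as
a linear form on the `ℝ`-Cartier classes, and `(h, c)` is nef and is zero exactly on the multiples of
`R`. -/
structure IsSupporting (u : ι → Fin n → ℤ) (S : Set (Set ι)) (C : Set W) (N : Fin n → W)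
    (h : ι → ℝ) (c : W) (R : (ι → ℝ) × (W →L[ℝ] ℝ)) : Prop where
  nef : IsNef u S C N h c
  mem : R ∈ NE u S C N
  ne : ∃ (d : ι → ℝ) (α : W), IsCartier u S d ∧ deg R d α ≠ 0
  zero : deg R h c = 0
  ray : ∀ R' ∈ NE u S C N, deg R' h c = 0 → ∃ t : ℝ, 0 ≤ t ∧
    ∀ (d : ι → ℝ) (α : W), IsCartier u S d → deg R' d α = t * deg R d α

/-- `Y ⇢ Y'` is a step of a minimal model program for the class `(d, δ)`, where `Y` and `Y'` are the
toric bundles with the fans `S` and `S'`, and `(d, δ)` is `ℝ`-Cartier on `Y'`: there are an extremal ray of the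
cone of curves of `Y`, generated by `R`, with negative degree of `(d, δ)`, and a nef supporting class
`(h, c)` of the ray (the pullback to `Y` of an ample class of `Z`, where `Y → Z` is the contraction of the
ray), such that
* no divisor is contracted by `Y' ⇢ Y`: the rays of `S'` are rays of `S`;
* `(h, c)` has the same pullback from `Y` and from `Y'` to a common resolution (its coefficient at the
  prime divisor given by `w` is `∑ a i h i` if `w = ∑ a i u i` in a cone of the fan), and it is nef on `Y'`,
  so that `Y'` has a morphism to `Z`;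
* the class `(d, δ)` is relatively ample for the morphism `Y' → Z`: the class `(d, δ) + t (h, c)` is ample
  on `Y'` for some `t ≥ 0`. -/
structure IsStep (u : ι → Fin n → ℤ) (S S' : Set (Set ι)) (C : Set W) (N : Fin n → W)
    (d : ι → ℝ) (δ : W) : Prop where
  fan : IsFan u S'
  cartier : IsCartier u S' d
  rays : ∀ i, {i} ∈ S' → {i} ∈ S
  step : ∃ (h : ι → ℝ) (c : W) (R : (ι → ℝ) × (W →L[ℝ] ℝ)), IsSupporting u S C N h c R ∧
    deg R d δ < 0 ∧ IsNef u S' C N h c ∧
    (∀ (w : Fin n → ℝ) (a a' : ι → ℝ), IsRep u S w a → IsRep u S' w a' →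
      ∑ i, a i * h i = ∑ i, a' i * h i) ∧
    ∃ t : ℝ, 0 ≤ t ∧ IsAmple u S' C N (fun i => d i + t * h i) (δ + t • c)

end Pool.Agent.U976.TG
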